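import Pool.Agent.W659.SA.DCH
import Pool.Agent.H39R3.Tor.SUnit

/-!
# Integral points on individual covers of subvarieties of `A × G_m^s × 𝔸^(n+1)`

`K` is any number field, `S` any finite set of primes of `K`, `A = E_1 × ⋯ × E_r` a product of
elliptic curves `y² = x³ + a_i x` or `y² = x³ + b_i` with `a_i, b_i ∈ ℤ`. The variety `U` over `K` is

  `G_1(P, u; t) = … = G_q(P, u; t) = 0, w_1² = F_1(P, u; t), …, w_m² = F_m(P, u; t)`, `P ∈ A`,

with polynomials `G_e`, `F_i` with coefficients in `𝓞 K`, multihomogeneous in the coordinates of the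
plane cubics `E_i` (of even degrees in the case of the `F_i`), in the coordinates `u_1, …, u_s` of a
torus and in parameters `t = (t_0, …, t_n)`. So `U` is a `(ℤ/2)^m`-cover of a closed subvariety of
`A × G_m^s × 𝔸^(n+1)`, for general equations of large degree in `t` of log general type.

Hypothesis: there is no complex point `(P, u)` of `A × G_m^s` such that all the polynomials
`G_e(P, u; ·)` in `t` vanish identically and all the `F_i(P, u; ·)` are squares.

Theorem: at most `(2H+1)^((n+1)N) exp(-c log H / log log H)`, `N = [K : ℚ]`, of the vectors `m` with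
coordinates in `𝓞 K` of size at most `H` (with respect to an integral basis) are such that for some
`z_0, …, z_n` the point `t = (z_0 m_0, …, z_n m_n)` lies below a point `(P, u, t, w)` of `U` with
`P ∈ A(K)`, `w_i ∈ K`. Here the `z_k` and the torus coordinates `u_l` are arbitrary elements of
a given finitely generated group `Γ ⊂ Kˣ` (Part 1), in particular arbitrary `S`-units (Part 2); since
up to `S`-units all the elements of the ring of `S`-integers are in `𝓞 K`, this concerns all the
`S`-integral points of `U`: they lie over a subset of density zero of the base, for all `K` and `S`.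
-/

set_option autoImplicit false

namespace Pool.Agent.Results.MP_26d9ad_nt.CoversOfSemiabelian

open MvPolynomial NumberField Pool.Agent.W659.SA IsDedekindDomain

/-- at most `(2H+1)^(nN) exp(-c log H / log log H)` of the vectors `m ∈ (𝓞 K)ⁿ` in a box of side `2H`
have multiples `(z_k m_k)`, `z_k ∈ Γ`, below a point of the variety with torus coordinates in `Γ` -/
def FewFibres {K : Type} [Field K] [NumberField K] {N : ℕ} (ω : Module.Basis (Fin N) ℤ (𝓞 K))
    {r s n q m : ℕ} (a b : Fin r → ℤ) (Γ : Subgroup Kˣ) (G : Fin q → Pol (𝓞 K) r s n)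
    (F : Fin m → Pol (𝓞 K) r s n) : Prop :=
  ∃ c : ℝ, 0 < c ∧ ∃ H₀ : ℕ, ∀ H : ℕ, H₀ ≤ H →
    (((FibH ω a b Γ G F H).ncard : ℕ) : ℝ) ≤
      (2 * (H : ℝ) + 1) ^ (n * N) * Real.exp (-c * (Real.log H / Real.log (Real.log H)))

theorem result (K : Type) [Field K] [NumberField K] (N : ℕ) (ω : Module.Basis (Fin N) ℤ (𝓞 K))
    (r s n q m : ℕ) (a b : Fin r → ℤ) (hab : ∀ i, a i * b i = 0 ∧ (a i ≠ 0 ∨ b i ≠ 0))
    (G : Fin q → Pol (𝓞 K) r s (n + 1)) (d' : Fin q → Fin r → ℕ) (hG : ∀ e, MHomog (G e) (d' e))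
    (F : Fin m → Pol (𝓞 K) r s (n + 1)) (d : Fin m → Fin r → ℕ) (hF : ∀ i, MHomog (F i) (d i))
    (hd : ∀ i j, Even (d i j)) (σ : K →+* ℂ)
    (hns : ∀ (V : Fin r → Fin 3 → ℂ) (u : Fin s → ℂ),
      (∀ i, Pool.Agent.W659.FD.OnE (a i) (b i) (V i)) → (∀ l, u l ≠ 0) →
      (∃ e, spc (toC σ) (G e) V u ≠ 0) ∨
        ∃ i, ∀ g : MvPolynomial (Fin (n + 1)) ℂ, spc (toC σ) (F i) V u ≠ g ^ 2) :
    -- Part 1: torus coordinates in a finitely generated group
    (∀ Γ : Subgroup Kˣ, Γ.FG → FewFibres ω a b Γ G F) ∧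
    -- Part 2: torus coordinates in the group of `S`-units
    (∀ S : Set (HeightOneSpectrum (𝓞 K)), S.Finite → FewFibres ω a b (S.unit K) G F) := by
  have h : ∀ Γ : Subgroup Kˣ, Γ.FG → FewFibres ω a b Γ G F := fun Γ hΓ =>
    dcH K N ω r s n q m a b hab Γ hΓ G d' hG F d hd hF σ hns
  exact ⟨h, fun S hS => h _ (Pool.Agent.H39R3.Tor.sunit_fg K S hS)⟩

end Pool.Agent.Results.MP_26d9ad_nt.CoversOfSemiabelian
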