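import Pool.Agent.W257.L6
import Pool.Agent.W573.LV5

/-!
# Integral points on surfaces fibred in plane curves over the line

`H` is a form of degree `m ≥ 3` in `x, y, z` with integer coefficients, `R` is any polynomial of
degree less than `m`, and we look at the integral points of the affine surface
`H(x, y, t y) = R(x, y, t y)` in `A^3`, with coordinates `x, y, t`. Equivalently: the integral
points `(x, y, z)` of the affine surface `H = R` for which `y` divides `z` (and `t = z / y`).

1. If `H` is irreducible over `ℚ` and `H(x, 0, z)` is a product of `m` distinct factors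
   `x - ρ z` with `ρ` an integer, then the surface is irreducible over `ℚ` and its integral points
   are not Zariski dense.
2. The same for `x^m - (t^m + r) y^m = R(x, y, t y)`, `r ≠ 0`.
-/

namespace Pool.Agent.Results.MP_26d9ad_nt.FibredSurfaces

open MvPolynomial

theorem result :
    (∀ (m : ℕ) (ρ : Fin m → ℤ) (H R : MvPolynomial (Fin 3) ℤ), 3 ≤ m →
      Function.Injective ρ → H.IsHomogeneous m →
      Irreducible (map (Int.castRingHom ℚ) H) →
      aeval ![X 0, 0, X 1] H = ∏ i, (X 0 - C (ρ i) * X 1 : MvPolynomial (Fin 2) ℤ) →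
      R.totalDegree < m →
      ∀ F : MvPolynomial (Fin 3) ℤ, F = aeval ![X 0, X 1, X 2 * X 1] (H - R) →
        Irreducible (map (Int.castRingHom ℚ) F) ∧
        ∃ G : MvPolynomial (Fin 3) ℤ,
          ¬ map (Int.castRingHom ℚ) F ∣ map (Int.castRingHom ℚ) G ∧
          ∀ x y t : ℤ, eval ![x, y, t] F = 0 → eval ![x, y, t] G = 0) ∧
    (∀ (m : ℕ) (r : ℤ) (R : MvPolynomial (Fin 3) ℤ), 3 ≤ m → r ≠ 0 → R.totalDegree < m →
      ∀ F : MvPolynomial (Fin 3) ℤ,
        F = X 0 ^ m - (X 2 ^ m + C r) * X 1 ^ m - aeval ![X 0, X 1, X 2 * X 1] R →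
        Irreducible (map (Int.castRingHom ℚ) F) ∧
        ∃ G : MvPolynomial (Fin 3) ℤ,
          ¬ map (Int.castRingHom ℚ) F ∣ map (Int.castRingHom ℚ) G ∧
          ∀ x y t : ℤ, eval ![x, y, t] F = 0 → eval ![x, y, t] G = 0) := by
  constructor
  · intro m ρ H R hm hρ hH hHi hH0 hR F hF
    rw [hF]
    exact Pool.Agent.W257.LV_split hm hρ hH hHi hH0 hR
  · intro m r R hm hr hR F hF
    have h1 : F = Pool.Agent.W257.surf (Pool.Agent.W257.Hp m r - R) := by
      rw [hF, Pool.Agent.W257.surf, map_sub, Pool.Agent.W257.Hp]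
      simp only [map_sub, map_mul, map_pow, aeval_X, aeval_C, Matrix.cons_val_zero,
        Matrix.cons_val_one, Matrix.cons_val, algebraMap_eq]
      ring
    rw [h1]
    exact Pool.Agent.W257.main_LVpure Pool.Agent.W573.LV5.main Pool.Agent.W397.LV2.main hm hr hR

end Pool.Agent.Results.MP_26d9ad_nt.FibredSurfaces
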