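import Pool.Agent.W180.RR.Asm

set_option autoImplicit false

/-!
# MP_26d9ad_nt: integral points over few places

Let `X ⊆ ℙ^{n-1}` be the projective scheme over `ℚ` given by forms `G k`, and let
`D i = X ∩ {F i = 0}`, `i < q`, be sections by forms of degree `d i`.  Suppose that any `N` of the
`D i` meet in finitely many (algebraic) points, with contact order at most `μ`, and let `S` be a
finite set of primes with `(N - 1) (|S| + 1) < q`.  Then every rational point of `X` outside the
`D i` satisfies, for some `i`,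
`log |F i (x)|' ≥ (d i - μ (2 + ε)) log H(x) - C`, where `|m|'` is the part of `m` prime to `S`.
In particular, if `d i > 2 μ` for all `i`, then `X` minus the `D i` has only finitely many
`S`-integral points.
-/

namespace Pool.Agent.Results.MP_26d9ad_nt.RungeRoth

open MvPolynomial NumberField
open Pool.Agent.W180.RR

theorem result {n q N μ : ℕ} {κ : Type} [Fintype κ]
    -- the projective scheme
    (G : κ → MvPolynomial (Fin n) ℤ) (g : κ → ℕ) (hG : ∀ k, (G k).IsHomogeneous (g k))
    -- the sections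
    (F : Fin q → MvPolynomial (Fin n) ℤ) (d : Fin q → ℕ) (hF : ∀ i, (F i).IsHomogeneous (d i))
    (hN : 1 ≤ N)
    -- any `N` of the `D i` meet in `K`-rational points only
    (K : Type) [Field K] [NumberField K]
    (hrat : ∀ J : Finset (Fin q), J.card = N → ∀ (L : Type) [Field L] [Algebra K L]
      (x : Fin n → L), x ≠ 0 → (∀ j ∈ J, aeval x (F j) = 0) → (∀ k, aeval x (G k) = 0) →
        ∃ (y : Fin n → K) (c : L), x = c • fun b => algebraMap K L (y b))
    -- the contact order is at most `μ`
    (hcon : ∀ J : Finset (Fin q), J.card = N → ∀ a,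
      ∀ Q ∈ (Ideal.span (Set.range (Sum.elim (fun j : J => bK K (F j.1))
        (fun k => bK K (G k))))).radical ^ μ,
      ∃ M : ℕ, X a ^ M * Q ∈ Ideal.span (Set.range (Sum.elim (fun j : J => bK K (F j.1))
        (fun k => bK K (G k)))))
    -- few places
    (S : Finset ℕ) (hS : ∀ p ∈ S, p.Prime) (hq : (N - 1) * (S.card + 1) < q) :
    (∀ ε : ℝ, 0 < ε → ∃ C : ℝ, ∀ x : Fin n → ℤ, Prim x → (∀ k, eval x (G k) = 0) →
      (∀ i, eval x (F i) ≠ 0) → ∃ i, (d i - μ * (2 + ε)) * Real.log (hgt x) - C ≤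
        Real.log (sfree S (eval x (F i)))) ∧
    (∀ θ c : ℝ, (∀ i, θ < (d i : ℝ) - 2 * μ) →
      {x : Fin n → ℤ | Prim x ∧ (∀ k, eval x (G k) = 0) ∧ ∀ i, eval x (F i) ≠ 0 ∧
        sfree S (eval x (F i)) ≤ c * hgt x ^ θ}.Finite) := by
  refine ⟨fun ε hε => ?_, fun θ c hθ => ?_⟩
  · obtain ⟨C, -, hC⟩ := few G g hG F d hF hN K hrat hcon S hS hq ε hε
    exact ⟨C, hC⟩
  · exact few_finite G g hG F d hF hN K hrat hcon S hS hq θ c hθ

end Pool.Agent.Results.MP_26d9ad_nt.RungeRoth
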