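import Pool.Agent.W180.TP.Nor

set_option autoImplicit false

/-!
# Integral points on complements of three hypersurface sections, for two places

`X = {G = 0}` is a projective scheme in `ℙ^(n-1)` over a number field `K` and
`D = ∑ D_i`, `D_i = X ∩ {F i = 0}`, has `q ≥ 3` components.
-/

namespace Pool.Agent.Results.MP_26d9ad_nt.TwoPlaces

open NumberField IsDedekindDomain
open scoped LinearAlgebra.Projectivization

/-- The point with homogeneous coordinates `x` lies on the projective scheme `X = {G = 0}`. -/
def On {K L : Type} [Field K] [Field L] [Algebra K L] {m n : ℕ}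
    (G : Fin m → MvPolynomial (Fin n) K) (x : Fin n → L) : Prop :=
  ∀ k, MvPolynomial.aeval x (G k) = 0

/-- The point with homogeneous coordinates `x` lies on the line through `y` and `y'`. -/
def OnLine {K L : Type} [Field K] [Field L] [Algebra K L] {n : ℕ} (y y' : Fin n → K)
    (x : Fin n → L) : Prop :=
  ∃ s t : L, x = fun b => s * algebraMap K L (y b) + t * algebraMap K L (y' b)

/-- The line through `y` and `y'` lies in `X = {G = 0}` and meets `D` at most in `y` and `y'`
(over every extension of `K`). -/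
def Exceptional {K : Type} [Field K] {m n q : ℕ} (G : Fin m → MvPolynomial (Fin n) K)
    (F : Fin q → MvPolynomial (Fin n) K) (y y' : Fin n → K) : Prop :=
  ∀ (L : Type) [Field L] [Algebra K L] (s t : L),
    On G (fun b => s * algebraMap K L (y b) + t * algebraMap K L (y' b)) ∧
    ∀ i, MvPolynomial.aeval (fun b => s * algebraMap K L (y b) + t * algebraMap K L (y' b)) (F i) =
      0 → s = 0 ∨ t = 0

/-- The hypersurfaces `A = 0` and `B = 0` meet on `X = {G = 0}` in `K`-rational points only (over
every extension of `K`), and the `μ`-th power of the ideal of these points is contained, locally,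
in the ideal of the scheme `X ∩ {A = B = 0}`. For `μ = 1` the second condition says that the
scheme `X ∩ {A = B = 0}` is reduced: if `X` is a surface, then `X` is smooth at the points of this
scheme and the curves `A = 0` and `B = 0` on `X` meet transversally there. -/
def Contact {K : Type} [Field K] {m n : ℕ} (μ : ℕ) (G : Fin m → MvPolynomial (Fin n) K)
    (A B : MvPolynomial (Fin n) K) : Prop :=
  (∀ (L : Type) [Field L] [Algebra K L] (x : Fin n → L), x ≠ 0 → On G x →
    MvPolynomial.aeval x A = 0 → MvPolynomial.aeval x B = 0 →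
      ∃ (y : Fin n → K) (c : L), x = c • fun b => algebraMap K L (y b)) ∧
  ∀ Q ∈ (Ideal.span ({A, B} ∪ Set.range G)).radical ^ μ, ∀ a : Fin n, ∃ M : ℕ,
    MvPolynomial.X a ^ M * Q ∈ Ideal.span ({A, B} ∪ Set.range G)

/-- The local height of the hypersurface `F = 0` of degree `d` at the point with homogeneous
coordinates `x`, for the absolute value `a` of `L`. -/
noncomputable def weil {K L : Type} [Field K] [Field L] [Algebra K L] {n : ℕ} (a : L → ℝ) (d : ℕ)
    (F : MvPolynomial (Fin n) K) (x : Fin n → L) : ℝ :=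
  Real.log ((⨆ j, a (x j)) ^ d / a (MvPolynomial.aeval x F))

/-- The absolute logarithmic height. -/
noncomputable def height {L : Type} [Field L] [NumberField L] {n : ℕ} (x : Fin n → L) : ℝ :=
  Height.logHeight x / Module.finrank ℚ L

/-- The counting function `N_S(x)`, with absolute normalisation, of the hypersurface `F = 0` of
degree `d`, where `S` consists of the archimedean places and the primes in `S₂`. -/
noncomputable def counting {K L : Type} [Field K] [Field L] [NumberField L] [Algebra K L] {n : ℕ}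
    (S₂ : Finset (HeightOneSpectrum (𝓞 L))) (d : ℕ) (F : MvPolynomial (Fin n) K)
    (x : Fin n → L) : ℝ :=
  (∑ᶠ (v : HeightOneSpectrum (𝓞 L)) (_ : v ∉ S₂), weil (FinitePlace.mk v) d F x) /
    Module.finrank ℚ L

/-- Let `X = {G = 0}` be a projective scheme over a number field `K`, let `F 0, …, F (q-1)`,
`q ≥ 3`, be forms of degrees `d i > μ` and suppose any two of the `D_i = X ∩ {F i = 0}` meet in
`K`-rational points with contact at most `μ`. There is a finite set `Z` of lines contained in `X`
and meeting `D = ∑ D_i` in at most two points such that for all `θ < 1` and `κ` there are only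
finitely many algebraic points `P` of `X`, off `D` and `Z`, such that `P` is defined over some
number field `L ⊇ K` and `N_S(D_i, P) ≤ θ h(P) + κ` for all `i`, for some set `S` of at most two
places of `L` which contains the archimedean ones. Neither `L` nor `S` is fixed. The case `θ = 0`
is the case of the (quasi-)`S`-integral points with respect to `D`. -/
theorem result (K : Type) [Field K] [NumberField K] (m n q : ℕ) (hq : 3 ≤ q)
    (G : Fin m → MvPolynomial (Fin n) K) (g : Fin m → ℕ) (hG : ∀ k, (G k).IsHomogeneous (g k))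
    (F : Fin q → MvPolynomial (Fin n) K) (d : Fin q → ℕ) (hF : ∀ i, (F i).IsHomogeneous (d i))
    (μ : ℕ) (hd : ∀ i, μ < d i) (hc : ∀ i j, i ≠ j → Contact μ G (F i) (F j)) :
    ∃ Z : Finset ((Fin n → K) × (Fin n → K)),
      (∀ z ∈ Z, LinearIndependent K ![z.1, z.2] ∧ Exceptional G F z.1 z.2) ∧
      ∀ θ κ : ℝ, θ < 1 →
        {P : ℙ (AlgebraicClosure K) (Fin n → AlgebraicClosure K) |
          On G P.rep ∧ (∀ i, MvPolynomial.aeval P.rep (F i) ≠ 0) ∧
          (∀ z ∈ Z, ¬ OnLine z.1 z.2 P.rep) ∧
          ∃ (L : Type) (_ : Field L) (_ : NumberField L) (_ : Algebra K L)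
            (σ : L →ₐ[K] AlgebraicClosure K) (x : Fin n → L) (c : AlgebraicClosure K)
            (S₂ : Finset (HeightOneSpectrum (𝓞 L))),
            P.rep = c • (fun b => σ (x b)) ∧
            Fintype.card (InfinitePlace L) + S₂.card ≤ 2 ∧
            ∀ i, counting S₂ (d i) (F i) x ≤ θ * height x + κ}.Finite := by
  classical
  have hweil : ∀ (L : Type) [Field L] [Algebra K L] (f : AbsoluteValue L ℝ) (e : ℕ)
      (H : MvPolynomial (Fin n) K) (x : Fin n → L), weil f e H x =
      Pool.Agent.W180.OP.lam f e (Pool.Agent.W180.OP.bc L H) x := by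
    intro L _ _ f e H x
    unfold weil Pool.Agent.W180.OP.lam
    rw [Pool.Agent.W180.OP.eval_bc]
    rfl
  have hrange : ∀ A B : MvPolynomial (Fin n) K, Set.range (Sum.elim ![A, B] G) =
      {A, B} ∪ Set.range G := by
    intro A B
    rw [Set.Sum.elim_range]
    congr 1
    ext P
    simp only [Matrix.range_cons, Matrix.range_empty, Set.union_empty, Set.mem_union,
      Set.mem_singleton_iff, Set.mem_insert_iff]
  obtain ⟨Z, hZ, C, hC0, hC⟩ := Pool.Agent.W180.TP.final hq G g hG F d hF μ (fun i => hd i) (by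
      intro i j hij a Q hQ
      rw [hrange] at hQ ⊢
      exact (hc i j hij).2 Q hQ a) (by
      intro i j hij L _ _ x hx h1 h2 h3
      exact (hc i j hij).1 L x hx h3 h1 h2)
  refine ⟨Z, fun z hz => ⟨(hZ z hz).1, fun L _ _ s t => ⟨fun k => ?_, fun i h => ?_⟩⟩, ?_⟩
  · exact (hZ z hz).2.1 k L ![s, t]
  · exact (hZ z hz).2.2 i L ![s, t] h
  -- finiteness
  intro θ κ hθ
  have hθ' : 0 < 1 - θ := by linarith
  set B : ℝ := 4 * max 0 ((κ + C) / (1 - θ)) with hB
  refine (Pool.Agent.W180.TP.northcott_pts (AlgebraicClosure K) n 4 B).subset ?_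
  rintro P ⟨hGP, hFP, hzP, L, _, _, _, σ, x, c, S₂, hP, hS, hint⟩
  have hev : ∀ (H : MvPolynomial (Fin n) K), MvPolynomial.aeval (fun b => σ (x b)) H =
      σ (MvPolynomial.aeval x H) := by
    intro H
    have h : (MvPolynomial.aeval (fun b => σ (x b)) :
        MvPolynomial (Fin n) K →ₐ[K] AlgebraicClosure K) = σ.comp (MvPolynomial.aeval x) := by
      apply MvPolynomial.algHom_ext
      intro b
      simp
    exact DFunLike.congr_fun h H
  have hc0 : c ≠ 0 := by
    rintro rfl
    exact P.rep_nonzero (by rw [hP, zero_smul])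
  have hx : x ≠ 0 := by
    rintro rfl
    apply P.rep_nonzero
    rw [hP]
    funext b
    simp
  have hGx : ∀ k, MvPolynomial.aeval x (G k) = 0 := by
    intro k
    have h1 := hGP k
    rw [hP, Pool.Agent.W180.TP.aeval_smul_hom' _ (hG k), hev] at h1
    exact (map_eq_zero σ).1 ((mul_eq_zero.1 h1).resolve_left (pow_ne_zero _ hc0))
  have hFx : ∀ i, MvPolynomial.aeval x (F i) ≠ 0 := by
    intro i h
    apply hFP i
    rw [hP, Pool.Agent.W180.TP.aeval_smul_hom' _ (hF i), hev, h, map_zero, mul_zero]
  have hZx : ∀ z ∈ Z, ∀ w : Fin 2 → L, x ≠ Pool.Agent.W180.TP.pt z.1 z.2 w := by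
    intro z hz w hw
    apply hzP z hz
    refine ⟨c * σ (w 0), c * σ (w 1), ?_⟩
    rw [hP, hw]
    funext b
    simp only [Pool.Agent.W180.TP.pt, Pi.smul_apply, smul_eq_mul, map_add, map_mul,
      AlgHom.commutes]
    ring
  have hN : (0 : ℝ) < Module.finrank ℚ L := by exact_mod_cast Module.finrank_pos
  have hN4 : Module.finrank ℚ L ≤ 4 := by
    rw [← InfinitePlace.sum_mult_eq]
    have h1 : ∑ w : InfinitePlace L, w.mult ≤ ∑ _w : InfinitePlace L, 2 :=
      Finset.sum_le_sum fun w _ => by
        rw [InfinitePlace.mult]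
        split_ifs <;> norm_num
    rw [Finset.sum_const, Finset.card_univ, smul_eq_mul] at h1
    omega
  refine ⟨L, inferInstance, inferInstance, σ.toRingHom, x, c, hP, hN4, ?_⟩
  -- the inequality
  set S : Finset (Pool.Agent.W180.OP.Pl L) := (Finset.univ : Finset (InfinitePlace L)).disjSum S₂
    with hSdef
  have hcard : S.card ≤ 2 := by
    rw [hSdef, Finset.card_disjSum, Finset.card_univ]
    exact hS
  obtain ⟨i, hi⟩ := hC L S hcard x hx hGx hFx hZx
  obtain ⟨-, h1⟩ := Pool.Agent.W180.TP.fmt (d := d i) (F i) hx (hFx i) S₂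
  have h2 : ∑ p ∈ S, Pool.Agent.W180.OP.wt p * Pool.Agent.W180.OP.lam
      (Pool.Agent.W180.OP.av p) (d i) (Pool.Agent.W180.OP.bc L (F i)) x =
      ∑ w : InfinitePlace L, (w.mult : ℝ) * Pool.Agent.W180.OP.lam w.1 (d i)
        (Pool.Agent.W180.OP.bc L (F i)) x +
      ∑ v ∈ S₂, Pool.Agent.W180.OP.lam (Pool.Agent.W180.OP.fv v) (d i)
        (Pool.Agent.W180.OP.bc L (F i)) x := by
    rw [hSdef, Finset.sum_disjSum]
    congr 1
    exact Finset.sum_congr rfl fun v _ => one_mul _
  have h3 : counting S₂ (d i) (F i) x = (∑ᶠ (v : HeightOneSpectrum (𝓞 L)) (_ : v ∉ S₂),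
      Pool.Agent.W180.OP.lam (Pool.Agent.W180.OP.fv v) (d i)
        (Pool.Agent.W180.OP.bc L (F i)) x) / Module.finrank ℚ L := by
    unfold counting
    congr 1
    refine finsum_congr fun v => finsum_congr fun _ => ?_
    exact hweil L (Pool.Agent.W180.OP.fv v) (d i) (F i) x
  have h4 := hint i
  rw [h3, div_le_iff₀ hN, height] at h4
  have h5 : (1 - θ) * Height.logHeight x ≤ (κ + C) * Module.finrank ℚ L := by
    have e1 : (θ * (Height.logHeight x / Module.finrank ℚ L) + κ) * Module.finrank ℚ L =
        θ * Height.logHeight x + κ * Module.finrank ℚ L := by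
      field_simp
    rw [e1] at h4
    linarith
  have h5' : Height.logHeight x ≤ (κ + C) / (1 - θ) * Module.finrank ℚ L := by
    rw [div_mul_eq_mul_div, le_div_iff₀ hθ']
    linarith
  have h6 : (κ + C) / (1 - θ) * Module.finrank ℚ L ≤
      max 0 ((κ + C) / (1 - θ)) * Module.finrank ℚ L :=
    mul_le_mul_of_nonneg_right (le_max_right _ _) hN.le
  have h7 : max 0 ((κ + C) / (1 - θ)) * Module.finrank ℚ L ≤ max 0 ((κ + C) / (1 - θ)) * 4 :=
    mul_le_mul_of_nonneg_left (by exact_mod_cast hN4) (le_max_left _ _)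
  rw [hB]
  linarith

end Pool.Agent.Results.MP_26d9ad_nt.TwoPlaces
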